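import Mathlib
import Pool.Agent.H15.FS2

set_option autoImplicit false

namespace Pool.Agent.Results.MP_cda74c_nt.TwoThree

open Finset Pool.Agent.H15.FS

open Classical in
lemma limit {I : Type} (m : I → ℕ) (hm : ∀ i, 0 < m i) (hinj : Function.Injective m)
    (hsum : HasSum (fun i => (1 : ℝ) / m i) 1) (Q : ℕ → Prop) (θ : ℝ) (h0 : 0 ≤ θ) (h1 : θ < 1)
    (h : ∀ J : Finset I, ∑ n ∈ (J.image m).filter (fun n => ¬ Q n), (1 : ℝ) / n ≤
      θ * (1 - ∑ n ∈ (J.image m).filter Q, (1 : ℝ) / n)) (i : I) : Q (m i) := by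
  by_contra hQ
  have hd : (0 : ℝ) < 1 / m i := by have := hm i; positivity
  have h2 : ∀ᶠ J : Finset I in Filter.atTop,
      1 - (1 - θ) * (1 / m i) < ∑ j ∈ J, (1 : ℝ) / m j := by
    have := hsum.eventually (lt_mem_nhds (show 1 - (1 - θ) * (1 / (m i : ℝ)) < 1 by nlinarith))
    simpa using this
  obtain ⟨J, hJ1, hJ2⟩ := (h2.and (Filter.eventually_ge_atTop {i})).exists
  have hi : i ∈ J := hJ2 (mem_singleton_self i)
  have h3 := sum_filter_add_sum_filter_not (J.image m) Q fun n => (1 : ℝ) / n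
  rw [sum_image fun a _ b _ hab => hinj hab] at h3
  have h4 : (1 : ℝ) / m i ≤ ∑ n ∈ (J.image m).filter (fun n => ¬ Q n), (1 : ℝ) / n :=
    single_le_sum (f := fun n : ℕ => (1 : ℝ) / n) (fun _ _ => by positivity)
      (mem_filter.mpr ⟨mem_image_of_mem _ hi, hQ⟩)
  have h5 := sum_le_hasSum J (fun j _ => by positivity) hsum
  have h6 := h J
  nlinarith

lemma two_three {n : ℕ} (hn : 0 < n) (h : Sm 5 n) : ∃ α β : ℕ, n = 2 ^ α * 3 ^ β := by
  induction n using Nat.recOnMul with
  | zero => omega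
  | one => exact ⟨0, 0, rfl⟩
  | prime p hp =>
    have h1 := h p hp dvd_rfl
    have h2 := hp.two_le
    interval_cases p
    · exact ⟨1, 0, rfl⟩
    · exact ⟨0, 1, rfl⟩
    · exact absurd hp (by norm_num)
  | mul a b ha hb =>
    obtain ⟨α, β, h1⟩ := ha (Nat.pos_of_mul_pos_right hn)
      fun p hp hpa => h p hp (hpa.mul_right _)
    obtain ⟨α', β', h2⟩ := hb (Nat.pos_of_mul_pos_left hn)
      fun p hp hpa => h p hp (hpa.mul_left _)
    exact ⟨α + α', β + β', by rw [h1, h2]; ring⟩

/-- Fraenkel and Simpson conjecture on infinite disjoint covering systems. -/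
theorem result {I : Type} [Infinite I] (a : I → ℤ) (m : I → ℕ) (hm : ∀ i, 2 ≤ m i)
    (hdistinct : Function.Injective m)
    (hcover : ∀ n : ℤ, 0 < n → ∃! i, n ≡ a i [ZMOD (m i : ℤ)])
    (hsum : HasSum (fun i => (1 : ℝ) / (m i : ℝ)) 1) :
    ∀ i, ∃ α β : ℕ, m i = 2 ^ α * 3 ^ β := by
  classical
  have hm0 : ∀ i, 0 < m i := fun i => by have := hm i; omega
  set b : ℕ → ℕ := fun n => (a (Function.invFun m n) % n).toNat with hb
  have hb1 : ∀ i, ((b (m i) : ℕ) : ℤ) ≡ a i [ZMOD (m i : ℤ)] := by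
    intro i
    simp only [hb, Function.leftInverse_invFun hdistinct i]
    rw [Int.toNat_of_nonneg (Int.emod_nonneg _ (by exact_mod_cast (hm0 i).ne'))]
    exact Int.mod_modEq _ _
  have hdis : ∀ J : Finset I, Dis (J.image m) b := by
    intro J n hn n' hn' hne hmod
    obtain ⟨i, -, rfl⟩ := mem_image.mp hn
    obtain ⟨j, -, rfl⟩ := mem_image.mp hn'
    obtain ⟨k, hk1, hk2⟩ := Nat.chineseRemainder' hmod
    have hpos : (0 : ℤ) < (k : ℤ) + m i * m j := by
      have := hm0 i; have := hm0 j; positivity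
    refine hne (congrArg m ((hcover _ hpos).unique ?_ ?_))
    · have h1 : (k : ℤ) + m i * m j ≡ k [ZMOD (m i : ℤ)] := by
        simp [Int.ModEq]
      exact h1.trans ((Int.natCast_modEq_iff.mpr hk1).trans (hb1 i))
    · have h1 : (k : ℤ) + m i * m j ≡ k [ZMOD (m j : ℤ)] := by
        simp [Int.ModEq]
      exact h1.trans ((Int.natCast_modEq_iff.mpr hk2).trans (hb1 j))
  have hpos : ∀ J : Finset I, ∀ n ∈ J.image m, 0 < n := by
    intro J n hn
    obtain ⟨i, -, rfl⟩ := mem_image.mp hn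
    exact hm0 i
  have hbig : ∀ i, Sm (16 * 10 ^ 8) (m i) :=
    limit m hm0 hdistinct hsum (Sm (16 * 10 ^ 8)) (1 / 2) (by norm_num) (by norm_num) fun J => by
      convert big (J.image m) b (hdis J) (hpos J) le_rfl
  have hstep : ∀ y, 5 ≤ y → (∀ i, Sm (y + 1) (m i)) → ∀ i, Sm y (m i) := by
    intro y hy h
    by_cases hp : y.Prime
    · have hy' : (5 : ℝ) ≤ y := by exact_mod_cast hy
      refine limit m hm0 hdistinct hsum (Sm y) (c (y + 1) / y)
        (div_nonneg (zero_le_one.trans (one_le_c _)) (by positivity)) ?_ fun J => ?_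
      · rw [div_lt_one (by linarith)]
        have h1 := c_sq' (show 0 < y by omega)
        have h2 := one_le_c (y + 1)
        nlinarith
      · convert lewis (J.image m) b (hdis J) (hpos J) hp fun n hn => by
          obtain ⟨i, -, rfl⟩ := mem_image.mp hn
          exact h i
    · intro i p hp' hpm
      have := h i p hp' hpm
      have : p ≠ y := by rintro rfl; exact hp hp'
      omega
  have hall : ∀ k, (∀ i, Sm (5 + k) (m i)) → ∀ i, Sm 5 (m i) := by
    intro k
    induction k with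
    | zero => exact id
    | succ k ih => exact fun h => ih (hstep (5 + k) (by omega) h)
  intro i
  exact two_three (hm0 i) (hall (16 * 10 ^ 8 - 5) (by simpa using hbig) i)

end Pool.Agent.Results.MP_cda74c_nt.TwoThree
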